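import Pool.Agent.Q169.ZD.Stm2

/-!
# Job RES of project ZD: a free acyclic complex with finitely many orbits as a finite free resolution
-/

set_option autoImplicit false

open scoped Matrix

namespace Pool.Agent.Q224.ZD

open Pool.Agent.Q169.ZD
open Pool.Agent.H919R4.ZS (FinRes augm)
open Pool.Agent.TH38.CX (AcyclicGComplex)

noncomputable section

variable {N : Type} [Group N]

/-- the bijection between cells and pairs -/
def eqv {E : Type} [MulAction N E] {c : ℕ} (r : Fin c → E) (hf : ∀ (n : N) (e : E), n • e = e → n = 1)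
    (hr : ∀ e : E, ∃! a, e ∈ MulAction.orbit N (r a)) : N × Fin c ≃ E :=
  Equiv.ofBijective (fun p => p.1 • r p.2) <| by
    constructor
    · rintro ⟨n, a⟩ ⟨m, b⟩ h
      simp only at h
      obtain ⟨z, _, hz⟩ := hr (n • r a)
      have h1 : a = z := hz a ⟨n, rfl⟩
      have h2 : b = z := hz b ⟨m, h.symm⟩
      subst h1
      subst h2
      have h3 : (m⁻¹ * n) • r b = r b := by
        rw [mul_smul, h, inv_smul_smul]
      have h4 := hf _ _ h3
      rw [inv_mul_eq_one] at h4
      rw [h4]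
    · intro e
      obtain ⟨a, ⟨n, hn⟩, _⟩ := hr e
      exact ⟨(n, a), hn⟩

theorem inj_r {E : Type} [MulAction N E] (hf : ∀ (n : N) (e : E), n • e = e → n = 1) (e : E) :
    Function.Injective fun g : N => g • e := by
  intro n m h
  simp only at h
  have h3 : (m⁻¹ * n) • e = e := by
    rw [mul_smul, h, inv_smul_smul]
  have h4 := hf _ _ h3
  rw [inv_mul_eq_one] at h4
  exact h4.symm

/-- the isomorphism of the chain group with a free module -/
def phi {E : Type} [MulAction N E] {c : ℕ} (r : Fin c → E) (hf : ∀ (n : N) (e : E), n • e = e → n = 1) :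
    (E →₀ ℤ) →+ (Fin c → MonoidAlgebra ℤ N) where
  toFun x k := MonoidAlgebra.ofCoeff (x.comapDomain (fun g => g • r k) (inj_r hf (r k)).injOn)
  map_zero' := by
    funext k
    ext g
    simp
  map_add' x y := by
    funext k
    ext g
    simp

section
variable {E : Type} [MulAction N E] {c : ℕ} (r : Fin c → E) (hf : ∀ (n : N) (e : E), n • e = e → n = 1)

theorem phi_apply (x : E →₀ ℤ) (k : Fin c) (g : N) : (phi r hf x k).coeff g = x (g • r k) := rfl

theorem phi_bij (hr : ∀ e : E, ∃! a, e ∈ MulAction.orbit N (r a)) : Function.Bijective (phi r hf) := by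
  constructor
  · intro x y h
    ext e
    obtain ⟨⟨n, a⟩, rfl⟩ := (eqv r hf hr).surjective e
    have h1 := congrArg (fun v => (v a).coeff n) h
    exact h1
  · intro v
    classical
    refine ⟨∑ k, (v k).coeff.mapDomain (fun g => g • r k), ?_⟩
    funext j
    ext g
    rw [phi_apply, Finsupp.finsetSum_apply, Finset.sum_eq_single j]
    · exact Finsupp.mapDomain_apply (inj_r hf (r j)) _ _
    · intro k _ hk
      refine Finsupp.mapDomain_of_notMem_range _ _ ?_
      rintro ⟨m, hm⟩
      have h1 : eqv r hf hr (m, k) = eqv r hf hr (g, j) := hm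
      have h2 := (eqv r hf hr).injective h1
      exact hk (congrArg Prod.snd h2)
    · intro h
      exact absurd (Finset.mem_univ j) h

theorem phi_single (hr : ∀ e : E, ∃! a, e ∈ MulAction.orbit N (r a)) (n : N) (j : Fin c) (z : ℤ) :
    phi r hf (Finsupp.single (n • r j) z) = Pi.single j (MonoidAlgebra.single n z) := by
  classical
  funext k
  ext g
  rw [phi_apply]
  by_cases hk : k = j
  · subst hk
    rw [Pi.single_eq_same, MonoidAlgebra.coeff_single, Finsupp.single_apply, Finsupp.single_apply]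
    have : (n • r k = g • r k) ↔ n = g := (inj_r hf (r k)).eq_iff
    simp only [this]
  · rw [Pi.single_eq_of_ne hk, Finsupp.single_apply, if_neg, MonoidAlgebra.coeff_zero, Finsupp.zero_apply]
    intro h
    have h1 : eqv r hf hr (n, j) = eqv r hf hr (g, k) := h
    have h2 := (eqv r hf hr).injective h1
    exact hk (congrArg Prod.snd h2).symm

theorem phi_smul (n : N) (y : E →₀ ℤ) (k : Fin c) :
    phi r hf (y.mapDomain (fun e => n • e)) k = MonoidAlgebra.single n 1 * phi r hf y k := by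
  ext g
  rw [phi_apply, MonoidAlgebra.coeff_single_mul_apply, phi_apply, one_mul]
  have h1 : g • r k = n • ((n⁻¹ * g) • r k) := by rw [← mul_smul, mul_inv_cancel_left]
  rw [h1]
  exact Finsupp.mapDomain_apply (MulAction.injective n) _ _

end

/-- the matrix of an equivariant map -/
def mat {E F : Type} [MulAction N E] [MulAction N F] {c c' : ℕ} (r : Fin c → E) (r' : Fin c' → F)
    (hf' : ∀ (n : N) (e : F), n • e = e → n = 1) (β : (E →₀ ℤ) →+ (F →₀ ℤ)) :
    Matrix (Fin c) (Fin c') (MonoidAlgebra ℤ N) :=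
  Matrix.of fun j k => phi r' hf' (β (Finsupp.single (r j) 1)) k

theorem phi_bd {E F : Type} [MulAction N E] [MulAction N F] {c c' : ℕ} (r : Fin c → E) (r' : Fin c' → F)
    (hf : ∀ (n : N) (e : E), n • e = e → n = 1) (hf' : ∀ (n : N) (e : F), n • e = e → n = 1)
    (hr : ∀ e : E, ∃! a, e ∈ MulAction.orbit N (r a)) (β : (E →₀ ℤ) →+ (F →₀ ℤ))
    (hβ : ∀ (g : N) (x : E →₀ ℤ), β (x.mapDomain (fun e => g • e)) = (β x).mapDomain (fun e => g • e))
    (x : E →₀ ℤ) :
    phi r' hf' (β x) = phi r hf x ᵥ* mat r r' hf' β := by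
  classical
  induction x using Finsupp.induction_linear with
  | zero => rw [map_zero, map_zero, map_zero, Matrix.zero_vecMul]
  | add x y hx hy => rw [map_add, map_add, map_add, Matrix.add_vecMul, hx, hy]
  | single e z =>
    obtain ⟨⟨n, j⟩, rfl⟩ := (eqv r hf hr).surjective e
    have e1 : (eqv r hf hr) (n, j) = n • r j := rfl
    rw [e1, phi_single r hf hr]
    have e2 : (Finsupp.single (n • r j) z : E →₀ ℤ) = z • (Finsupp.single (r j) 1 : E →₀ ℤ).mapDomain (fun e => n • e) := by
      rw [Finsupp.mapDomain_single, Finsupp.smul_single, smul_eq_mul, mul_one]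
    rw [e2, map_zsmul, map_zsmul, hβ]
    rw [Matrix.single_vecMul]
    funext k
    rw [Pi.smul_apply, phi_smul]
    have e3 : (MonoidAlgebra.single n z : MonoidAlgebra ℤ N) = z • MonoidAlgebra.single n 1 := by
      rw [MonoidAlgebra.smul_single, smul_eq_mul, mul_one]
    rw [Pi.smul_apply, smul_eq_mul, e3, smul_mul_assoc]
    rfl

theorem phi_augm {E : Type} [MulAction N E] {c : ℕ} (r : Fin c → E)
    (hf : ∀ (n : N) (e : E), n • e = e → n = 1)
    (hr : ∀ e : E, ∃! a, e ∈ MulAction.orbit N (r a)) (x : E →₀ ℤ) :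
    ∑ j, augm N (phi r hf x j) * 1 = x.sum (fun _ r => r) := by
  classical
  induction x using Finsupp.induction_linear with
  | zero => simp
  | add x y hx hy =>
    rw [Finsupp.sum_add_index' (fun _ => rfl) (fun _ _ _ => rfl), ← hx, ← hy, ← Finset.sum_add_distrib]
    refine Finset.sum_congr rfl fun j _ => ?_
    rw [map_add, Pi.add_apply, map_add, add_mul]
  | single e z =>
    obtain ⟨⟨n, j⟩, rfl⟩ := (eqv r hf hr).surjective e
    have e1 : (eqv r hf hr) (n, j) = n • r j := rfl
    rw [e1, phi_single r hf hr, Finsupp.sum_single_index rfl, Finset.sum_eq_single j]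
    · rw [Pi.single_eq_same, mul_one]
      simp [augm]
    · intro k _ hk
      rw [Pi.single_eq_of_ne hk, map_zero, zero_mul]
    · intro h
      exact absurd (Finset.mem_univ j) h

theorem res : S_RES := by
  intro N _ U hf c rep hr
  have key : ∀ i (x : U.E (i + 1) →₀ ℤ), phi (rep i) (hf i) (U.bd i x) =
      phi (rep (i + 1)) (hf (i + 1)) x ᵥ* mat (rep (i + 1)) (rep i) (hf i) (U.bd i) := fun i x =>
    phi_bd _ _ _ _ (hr (i + 1)) (U.bd i) (U.bd_smul i) x
  refine ⟨{
    len := U.len
    n := c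
    d := fun i => mat (rep (i + 1)) (rep i) (hf i) (U.bd i)
    aug := fun _ => 1
    n_eq_zero := fun i hi => ?_
    surj := ?_
    exact_zero := fun x => ?_
    exact_succ := fun i x => ?_ }, fun i => (eqv (rep i) (hf i) (hr i)).symm, fun i n e => ?_, fun i e f => ?_⟩
  · by_contra h
    have hE := U.isEmpty i hi
    exact hE.elim (rep i ⟨0, Nat.pos_of_ne_zero h⟩)
  · obtain ⟨e⟩ := U.nonempty
    refine ⟨phi (rep 0) (hf 0) (Finsupp.single e 1), ?_⟩
    rw [phi_augm (rep 0) (hf 0) (hr 0), Finsupp.sum_single_index rfl]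
  · obtain ⟨x, rfl⟩ := (phi_bij (rep 0) (hf 0) (hr 0)).2 x
    rw [phi_augm (rep 0) (hf 0) (hr 0), U.exact_zero]
    constructor
    · rintro ⟨y, rfl⟩
      exact ⟨_, (key 0 y).symm⟩
    · rintro ⟨y, hy⟩
      obtain ⟨y, rfl⟩ := (phi_bij (rep 1) (hf 1) (hr 1)).2 y
      refine ⟨y, (phi_bij (rep 0) (hf 0) (hr 0)).1 ?_⟩
      rw [key 0 y]
      exact hy
  · obtain ⟨x, rfl⟩ := (phi_bij (rep (i + 1)) (hf (i + 1)) (hr (i + 1))).2 x
    have h1 : phi (rep (i + 1)) (hf (i + 1)) x ᵥ* mat (rep (i + 1)) (rep i) (hf i) (U.bd i) = 0 ↔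
        U.bd i x = 0 := by
      rw [← key i x]
      constructor
      · intro h
        exact (phi_bij (rep i) (hf i) (hr i)).1 (by rw [h, map_zero])
      · intro h
        rw [h, map_zero]
    rw [h1, U.exact_succ]
    constructor
    · rintro ⟨y, rfl⟩
      exact ⟨_, (key (i + 1) y).symm⟩
    · rintro ⟨y, hy⟩
      obtain ⟨y, rfl⟩ := (phi_bij (rep (i + 2)) (hf (i + 2)) (hr (i + 2))).2 y
      refine ⟨y, (phi_bij (rep (i + 1)) (hf (i + 1)) (hr (i + 1))).1 ?_⟩
      rw [key (i + 1) y]
      exact hy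
  · rw [Equiv.symm_apply_eq]
    have h1 : (eqv (rep i) (hf i) (hr i)) ((eqv (rep i) (hf i) (hr i)).symm e) = e :=
      Equiv.apply_symm_apply _ _
    have h2 : (eqv (rep i) (hf i) (hr i)) ((eqv (rep i) (hf i) (hr i)).symm e) =
      ((eqv (rep i) (hf i) (hr i)).symm e).1 • rep i ((eqv (rep i) (hf i) (hr i)).symm e).2 := rfl
    have h3 : (eqv (rep i) (hf i) (hr i)) (n * ((eqv (rep i) (hf i) (hr i)).symm e).1,
      ((eqv (rep i) (hf i) (hr i)).symm e).2) =
      (n * ((eqv (rep i) (hf i) (hr i)).symm e).1) • rep i ((eqv (rep i) (hf i) (hr i)).symm e).2 := rfl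
    rw [h3, mul_smul, ← h2, h1]
  · obtain ⟨⟨n, j⟩, rfl⟩ := (eqv (rep (i + 1)) (hf (i + 1)) (hr (i + 1))).surjective e
    obtain ⟨⟨m, k⟩, rfl⟩ := (eqv (rep i) (hf i) (hr i)).surjective f
    simp only [Equiv.symm_apply_apply]
    have h1 : (eqv (rep (i + 1)) (hf (i + 1)) (hr (i + 1))) (n, j) = n • rep (i + 1) j := rfl
    have h2 : (eqv (rep i) (hf i) (hr i)) (m, k) = m • rep i k := rfl
    have h0 : mat (rep (i + 1)) (rep i) (hf i) (U.bd i) j k =
        phi (rep i) (hf i) (U.bd i (Finsupp.single (rep (i + 1) j) 1)) k := rfl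
    rw [h1, h2, h0, phi_apply]
    have h3 : (Finsupp.single (n • rep (i + 1) j) 1 : U.E (i + 1) →₀ ℤ) =
        (Finsupp.single (rep (i + 1) j) 1 : U.E (i + 1) →₀ ℤ).mapDomain (fun e => n • e) := by
      rw [Finsupp.mapDomain_single]
    rw [h3, U.bd_smul]
    have h4 : m • rep i k = n • ((n⁻¹ * m) • rep i k) := by rw [← mul_smul, mul_inv_cancel_left]
    rw [h4]
    exact Finsupp.mapDomain_apply (MulAction.injective n) _ _

end

end Pool.Agent.Q224.ZD
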